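import Pool.Agent.TH796.AL.Stms
import Pool.Agent.TH932.S2.KP
import Pool.Agent.TH796.AL.Lem

set_option autoImplicit false

/-!
# AL-KPA: the key proposition at the real place, with algebraic coefficients

Port of `Pool.Agent.TH932.S2.KP` (helper592 for helper932).
-/

namespace Pool.Agent.TH147.AL

open Filter Topology Pool.Agent.TH932.Abs Pool.Agent.TH932.Germs Pool.Agent.TH932.Chi
open Pool.Agent.TH796.AL
open scoped Pointwise

/-! ### the order -/

section order
variable {m : ℕ} (B : Base m)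

/-- the order -/
noncomputable def key (g : Fin m → ℝ) : ℝ ×ₗ Lex (Fin m → ℝ) := toLex (lv B none g, toLex g)

theorem key_add (g h : Fin m → ℝ) : key B (g + h) = key B g + key B h := by
  unfold key
  rw [lv_add]
  rfl

theorem key_inj : Function.Injective (key B) := by
  intro g h hgh
  have h1 := toLex.injective hgh
  rw [Prod.mk.injEq] at h1
  exact toLex.injective h1.2

theorem uniq {S T : Finset (Fin m → ℝ)} {a b : Fin m → ℝ}
    (ha : ∀ x ∈ S, key B a ≤ key B x) (hb : ∀ x ∈ T, key B b ≤ key B x) :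
    UniqueAdd S T a b := by
  intro x y hx hy hxy
  have h1 := ha x hx
  have h2 := hb y hy
  have h3 : key B x + key B y = key B a + key B b := by
    rw [← key_add, ← key_add, hxy]
  have h4 : key B x = key B a := by
    refine le_antisymm ?_ h1
    by_contra hcon
    rw [not_le] at hcon
    exact absurd h3 (add_lt_add_of_lt_of_le hcon h2).ne'
  have h5 : key B y = key B b := by
    rw [h4] at h3
    exact add_left_cancel h3
  exact ⟨key_inj B h4, key_inj B h5⟩

theorem key_le {g h : Fin m → ℝ} (hgh : key B g ≤ key B h) : lv B none g ≤ lv B none h := by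
  unfold key at hgh
  rcases (Prod.Lex.toLex_le_toLex.1 hgh) with h1 | h1
  · exact h1.le
  · exact h1.1.le

end order

/-! ### coefficients of sums -/

section coeff
variable {R G : Type} [Semiring R] [AddCommGroup G]

theorem coeff_sum_eq {ι : Type} [Fintype ι] (P : ι → Prop) [DecidablePred P] (f : ι → G)
    (hf : Function.Injective f) (c : ι → R) (i : ι) (hP : P i) :
    (∑ g, if P g then (AddMonoidAlgebra.single (f g) (c g) : AddMonoidAlgebra R G)
      else 0).coeff (f i) = c i := by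
  rw [AddMonoidAlgebra.coeff_sum, Finsupp.finsetSum_apply, Finset.sum_eq_single i]
  · rw [if_pos hP, AddMonoidAlgebra.coeff_single, Finsupp.single_eq_same]
  · intro b _ hb
    by_cases hPb : P b
    · rw [if_pos hPb, AddMonoidAlgebra.coeff_single, Finsupp.single_eq_of_ne]
      exact fun h => hb (hf h.symm)
    · rw [if_neg hPb]; rfl
  · intro h; exact absurd (Finset.mem_univ i) h

theorem coeff_sum_ne {ι : Type} [Fintype ι] (P : ι → Prop) [DecidablePred P] (f : ι → G)
    (c : ι → R) (x : G) (hx : ∀ i, P i → f i ≠ x) :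
    (∑ g, if P g then (AddMonoidAlgebra.single (f g) (c g) : AddMonoidAlgebra R G)
      else 0).coeff x = 0 := by
  rw [AddMonoidAlgebra.coeff_sum, Finsupp.finsetSum_apply]
  refine Finset.sum_eq_zero fun b _ => ?_
  by_cases hPb : P b
  · rw [if_pos hPb, AddMonoidAlgebra.coeff_single, Finsupp.single_eq_of_ne]
    exact fun h => hx b hPb h.symm
  · rw [if_neg hPb]; rfl

end coeff

/-! ### linear independence -/

section li
variable {m : ℕ} {B : Base m} {L : ℕ → ℝ} (hL : Tendsto L atTop atTop)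
  (F : IntermediateField ℚ ℝ)

theorem ev_sum' {ι : Type} [Fintype ι] (P : ι → Prop) [DecidablePred P] (f : ι → Fin m → ℝ)
    (c : ι → KK L hL) :
    ev B hL (∑ g, if P g then (AddMonoidAlgebra.single (f g) (c g) : Rg m hL) else 0) =
      ∑ g, if P g then (c g : GG) * ch B hL (f g) else 0 := by
  rw [map_sum]
  refine Finset.sum_congr rfl fun g _ => ?_
  split_ifs
  · rw [ev_single]
  · rw [map_zero]

theorem evA_sum' {ι : Type} [Fintype ι] (P : ι → Prop) [DecidablePred P] (f : ι → Fin m → ℝ)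
    (c : ι → KA F hL) :
    evA F B hL (∑ g, if P g then (AddMonoidAlgebra.single (f g) (c g) : RgA F m hL) else 0) =
      ∑ g, if P g then (c g : HR) * rho (ch B hL (f g)) else 0 := by
  rw [map_sum]
  refine Finset.sum_congr rfl fun g _ => ?_
  split_ifs
  · rw [evA_single]
  · rw [map_zero]

variable {J : Type} [Fintype J] (ζ : J → GG)

theorem li_e (hind : ∀ A : J → Rg m hL, ∑ j, ev B hL (A j) * ζ j = 0 → ∀ j, A j = 0)
    (W : Finset (Fin m → ℝ)) (c : W × J → KK L hL)
    (h : ∑ i, (c i : GG) * (ch B hL i.1 * ζ i.2) = 0) : ∀ i, c i = 0 := by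
  classical
  set D : J → Rg m hL := fun j => ∑ g : W, if True then
    (AddMonoidAlgebra.single (g : Fin m → ℝ) (c (g, j)) : Rg m hL) else 0 with hD
  have h1 : ∑ j, ev B hL (D j) * ζ j = 0 := by
    rw [← h, Fintype.sum_prod_type_right]
    refine Finset.sum_congr rfl fun j _ => ?_
    rw [hD]
    simp only []
    rw [ev_sum' hL (fun _ : W => True) (fun g : W => (g : Fin m → ℝ)) (fun g => c (g, j)),
      Finset.sum_mul]
    refine Finset.sum_congr rfl fun g _ => ?_
    rw [if_pos trivial, mul_assoc]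
  intro i
  have h2 := hind D h1 i.2
  have h3 := coeff_sum_eq (fun _ : W => True) (fun g : W => (g : Fin m → ℝ))
    Subtype.val_injective (fun g => c (g, i.2)) i.1 trivial
  have h4 : (D i.2).coeff (i.1 : Fin m → ℝ) = 0 := by rw [h2]; rfl
  exact h3.symm.trans h4

theorem li_z [DecidableEq J]
    (hind : ∀ A : J → RgA F m hL, ∑ j, evA F B hL (A j) * rho (ζ j) = 0 → ∀ j, A j = 0)
    (A : J → RgA F m hL) (j0 : J) (γ : Fin m → ℝ) (hγ0 : (A j0).coeff γ ≠ 0)
    (hγ : ∀ x ∈ (A j0).coeff.support, key B γ ≤ key B x)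
    (W Ω : Finset (Fin m → ℝ)) [DecidablePred fun g : Fin m → ℝ => g - γ ∈ Ω]
    (c : W × J → KA F hL)
    (h : ∑ i : W × J, (c i : HR) * (if i.2 = j0 ∧ (i.1 : Fin m → ℝ) - γ ∈ Ω then
      rho (ch B hL (i.1 - γ)) * ∑ j, evA F B hL (A j) * rho (ζ j) else
        rho (ch B hL i.1 * ζ i.2)) = 0) :
    ∀ i, c i = 0 := by
  classical
  set Φ := ∑ j, evA F B hL (A j) * rho (ζ j) with hΦ
  set N : J → RgA F m hL := fun j => ∑ g : W, if ¬ (j = j0 ∧ (g : Fin m → ℝ) - γ ∈ Ω) then
    (AddMonoidAlgebra.single (g : Fin m → ℝ) (c (g, j)) : RgA F m hL) else 0 with hN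
  set D : RgA F m hL := ∑ g : W, if (g : Fin m → ℝ) - γ ∈ Ω then
    (AddMonoidAlgebra.single ((g : Fin m → ℝ) - γ) (c (g, j0)) : RgA F m hL) else 0 with hD
  have h1 : ∑ j, evA F B hL (N j + D * A j) * rho (ζ j) = 0 := by
    rw [← h, Fintype.sum_prod_type_right]
    have e1 : ∀ j, evA F B hL (N j + D * A j) * rho (ζ j) =
        (∑ g : W, if ¬ (j = j0 ∧ (g : Fin m → ℝ) - γ ∈ Ω) then
          (c (g, j) : HR) * rho (ch B hL (g : Fin m → ℝ)) * rho (ζ j) else 0) +
        evA F B hL D * (evA F B hL (A j) * rho (ζ j)) := by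
      intro j
      rw [map_add, map_mul, add_mul, mul_assoc]
      congr 1
      rw [hN]
      simp only []
      rw [evA_sum' hL F (fun g : W => ¬ (j = j0 ∧ (g : Fin m → ℝ) - γ ∈ Ω))
        (fun g : W => (g : Fin m → ℝ)) (fun g => c (g, j)), Finset.sum_mul]
      refine Finset.sum_congr rfl fun g _ => ?_
      rw [ite_mul, zero_mul]
    simp only [e1]
    rw [Finset.sum_add_distrib, ← Finset.mul_sum, ← hΦ]
    have e2 : evA F B hL D * Φ = ∑ j, ∑ g : W, if (j = j0 ∧ (g : Fin m → ℝ) - γ ∈ Ω) then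
        (c (g, j) : HR) * (rho (ch B hL ((g : Fin m → ℝ) - γ)) * Φ) else 0 := by
      rw [Finset.sum_eq_single j0]
      · rw [hD, evA_sum' hL F (fun g : W => (g : Fin m → ℝ) - γ ∈ Ω)
          (fun g : W => (g : Fin m → ℝ) - γ) (fun g => c (g, j0)), Finset.sum_mul]
        refine Finset.sum_congr rfl fun g _ => ?_
        simp only [true_and]
        split_ifs
        · rw [mul_assoc]
        · rw [zero_mul]
      · intro b _ hb
        refine Finset.sum_eq_zero fun g _ => ?_
        rw [if_neg (fun h => hb h.1)]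
      · intro h; exact absurd (Finset.mem_univ j0) h
    rw [e2, ← Finset.sum_add_distrib]
    refine Finset.sum_congr rfl fun j _ => ?_
    rw [← Finset.sum_add_distrib]
    refine Finset.sum_congr rfl fun g _ => ?_
    by_cases hs : j = j0 ∧ (g : Fin m → ℝ) - γ ∈ Ω
    · rw [if_neg (not_not.2 hs), if_pos hs, if_pos hs, zero_add]
    · rw [if_pos hs, if_neg hs, if_neg hs, add_zero, mul_assoc, map_mul]
  have h2 := hind _ h1
  have hDγ : ∀ ω ∈ Ω, ∀ hw : ω + γ ∈ W, D.coeff ω = c (⟨ω + γ, hw⟩, j0) := by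
    intro ω hω hw
    have h3 := coeff_sum_eq (fun g : W => (g : Fin m → ℝ) - γ ∈ Ω)
      (fun g : W => (g : Fin m → ℝ) - γ)
      (fun a b hab => Subtype.ext (sub_left_injective hab)) (fun g => c (g, j0)) ⟨ω + γ, hw⟩
      (by simpa using hω)
    simp only [add_sub_cancel_right] at h3
    exact h3
  have hDs : ∀ x, D.coeff x ≠ 0 → x ∈ Ω := by
    intro x hx
    by_contra hcon
    refine hx ?_
    refine coeff_sum_ne (fun g : W => (g : Fin m → ℝ) - γ ∈ Ω) (fun g : W => (g : Fin m → ℝ) - γ)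
      (fun g => c (g, j0)) x fun g hg hgx => hcon ?_
    rw [← hgx]; exact hg
  have hD0 : D = 0 := by
    by_contra hne
    have hsup : D.coeff.support.Nonempty := by
      rw [Finset.nonempty_iff_ne_empty, Ne, Finsupp.support_eq_empty]
      intro h0
      exact hne (AddMonoidAlgebra.coeff_injective h0)
    obtain ⟨ω, hω, hmin⟩ := Finset.exists_min_image _ (key B) hsup
    have hωD : D.coeff ω ≠ 0 := Finsupp.mem_support_iff.1 hω
    have hωΩ := hDs ω hωD
    have hu := uniq B hmin hγ
    have h3 := AddMonoidAlgebra.coeff_mul_add_of_uniqueAdd hu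
    have h4 : (N j0).coeff (ω + γ) = 0 := by
      refine coeff_sum_ne (fun g : W => ¬ (j0 = j0 ∧ (g : Fin m → ℝ) - γ ∈ Ω))
        (fun g : W => (g : Fin m → ℝ)) (fun g => c (g, j0)) _ fun g hg hgx => hg ⟨rfl, ?_⟩
      rw [hgx, add_sub_cancel_right]
      exact hωΩ
    have h5 : (N j0 + D * A j0).coeff (ω + γ) = 0 := by rw [h2 j0]; rfl
    rw [AddMonoidAlgebra.coeff_add, Finsupp.add_apply, h4, zero_add, h3] at h5
    exact mul_ne_zero hωD hγ0 h5
  intro i
  by_cases hs : i.2 = j0 ∧ (i.1 : Fin m → ℝ) - γ ∈ Ω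
  · have h3 := hDγ _ hs.2 (by rw [sub_add_cancel]; exact i.1.2)
    rw [hD0] at h3
    have h4 : ((⟨(i.1 : Fin m → ℝ) - γ + γ, by rw [sub_add_cancel]; exact i.1.2⟩ : W), j0) = i := by
      refine Prod.ext (Subtype.ext ?_) hs.1.symm
      simp
    rw [h4] at h3
    exact h3.symm
  · have h3 := h2 i.2
    rw [hD0, zero_mul, add_zero] at h3
    have h4 := coeff_sum_eq (fun g : W => ¬ (i.2 = j0 ∧ (g : Fin m → ℝ) - γ ∈ Ω))
      (fun g : W => (g : Fin m → ℝ)) Subtype.val_injective (fun g => c (g, i.2)) i.1 hs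
    have h5 : (N i.2).coeff (i.1 : Fin m → ℝ) = 0 := by rw [h3]; rfl
    exact h4.symm.trans h5

end li

theorem kpa (h : MovAStmt) (he : ExtStmt) : KPAStmt := by
  intro m B L hL F hF J _ ζ C hind hval hsint
  classical
  refine ⟨2 * ((m + 1 : ℕ) : ℝ) * |C| * Fintype.card J, fun A x hx j g hg => ?_⟩
  have hindA := he m B L hL F hF J inferInstance ζ hind
  set T : Finset (Fin m → ℝ) := Finset.univ.biUnion fun j => (A j).coeff.support with hT
  have hgT : g ∈ T := Finset.mem_biUnion.2 ⟨j, Finset.mem_univ j, Finsupp.mem_support_iff.2 hg⟩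
  obtain ⟨γ, hγT, hγmin⟩ := Finset.exists_min_image T (key B) ⟨g, hgT⟩
  obtain ⟨j0, _, hj0⟩ := Finset.mem_biUnion.1 hγT
  have hγ0 : (A j0).coeff γ ≠ 0 := Finsupp.mem_support_iff.1 hj0
  have hγm : ∀ x ∈ (A j0).coeff.support, key B γ ≤ key B x := fun x hx =>
    hγmin x (Finset.mem_biUnion.2 ⟨j0, Finset.mem_univ _, hx⟩)
  obtain ⟨Ω, hΩne, hΩ⟩ := Pool.Agent.TH932.S2.KP.folner T
  set W := Ω + T with hW
  set Φ := ∑ j, evA F B hL (A j) * rho (ζ j) with hΦ
  have hval' : ∀ u j, ζ j ∈ Sv B L u (-|C|) := fun u j =>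
    (filt_v hL u).anti (neg_le_neg (le_abs_self C)) (hval u j)
  set e : W × J → GG := fun i => ch B hL i.1 * ζ i.2 with he'
  set z : W × J → HR := fun i => if i.2 = j0 ∧ (i.1 : Fin m → ℝ) - γ ∈ Ω then
      rho (ch B hL (i.1 - γ)) * Φ else rho (ch B hL i.1 * ζ i.2) with hz
  set w : Fin m → W × J → ℝ := fun v i => lv B (some v) i.1 - |C| with hw
  set wI : W × J → ℝ := fun i => if (i.2 = j0 ∧ (i.1 : Fin m → ℝ) - γ ∈ Ω) then
      lv B none (i.1 - γ) + x else lv B none i.1 - |C| with hwI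
  have hord : ∀ (u : Option (Fin m)) (i : W × J), e i ∈ Sv B L u (lv B u i.1 - |C|) := by
    intro u i
    have := (filt_v hL u).mul_mem (ch_mem hL u i.1) (hval' u i.2)
    rw [← sub_eq_add_neg] at this
    exact this
  have hmain := h m B L hL F hF (W × J) inferInstance e z w wI
    (fun c hc => li_e hL ζ hind W c hc)
    (fun c hc => li_z hL F ζ hindA A j0 γ hγ0 hγm W Ω c hc)
    (fun i => by
      have hze : z i ∈ Submodule.span (KA F hL) (Set.range fun j => rho (e j)) := by
        rw [hz]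
        simp only []
        split_ifs with hs
        · rw [hΦ, Finset.mul_sum]
          refine Submodule.sum_mem _ fun j _ => ?_
          rw [evA_sum, Finset.sum_mul, Finset.mul_sum]
          refine Submodule.sum_mem _ fun t ht => ?_
          have htW : (i.1 : Fin m → ℝ) - γ + t ∈ W := Finset.add_mem_add hs.2
            (Finset.mem_biUnion.2 ⟨j, Finset.mem_univ _, ht⟩)
          have e1 : rho (ch B hL (i.1 - γ)) *
              (((A j).coeff t : HR) * rho (ch B hL t) * rho (ζ j)) =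
              ((A j).coeff t) • rho (e (⟨(i.1 : Fin m → ℝ) - γ + t, htW⟩, j)) := by
            rw [Subalgebra.smul_def, smul_eq_mul, he']
            simp only []
            rw [ch_add, map_mul, map_mul]
            ring
          rw [e1]
          exact Submodule.smul_mem _ _ (Submodule.subset_span ⟨_, rfl⟩)
        · exact Submodule.subset_span ⟨i, rfl⟩
      obtain ⟨c, hc⟩ := (Submodule.mem_span_range_iff_exists_fun (KA F hL)).1 hze
      exact ⟨c, hc.symm⟩)
    (fun v i => hord (some v) i)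
    (fun i => by
      rw [hz, hwI]
      simp only []
      split_ifs with hs
      · exact SR_mul hL (SR_rho (ch_mem hL none _)) hx
      · exact SR_rho (hord none i))
    (fun i => Sint.mul hL (ch_sint hL _) (hsint _))
    (∑ i : W × J, |lv B none i.1 - (|C|)|)
    (fun i => by
      refine SR_anti hL ?_ (SR_rho (hord none i))
      have h1 : |lv B none i.1 - (|C|)| ≤ ∑ i : W × J, |lv B none i.1 - (|C|)| :=
        Finset.single_le_sum (f := fun i : W × J => |lv B none i.1 - (|C|)|)
          (fun _ _ => abs_nonneg _) (Finset.mem_univ i)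
      have h2 := neg_abs_le (lv B none i.1 - |C|)
      linarith)
  -- the sum of the weights
  set X : ℝ := x - lv B none γ + |C| with hX
  have hwe : ∀ i, wI i = (lv B none i.1 - |C|) +
      if (i.2 = j0 ∧ (i.1 : Fin m → ℝ) - γ ∈ Ω) then X else 0 := by
    intro i
    rw [hwI]
    simp only []
    split_ifs
    · rw [hX, sub_eq_add_neg (i.1 : Fin m → ℝ) γ, lv_add, lv_neg]
      ring
    · ring
  have hsum : ∑ v, ∑ i, w v i + ∑ i, wI i =
      -(((m + 1 : ℕ) : ℝ) * |C| * ((W.card : ℝ) * Fintype.card J)) +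
      ((Finset.univ.filter fun i : W × J => i.2 = j0 ∧ (i.1 : Fin m → ℝ) - γ ∈ Ω).card : ℝ) * X := by
    have e0 : ∀ i : W × J, ∑ v, w v i + (lv B none i.1 - |C|) =
        -(((m + 1 : ℕ) : ℝ) * |C|) := by
      intro i
      have e1 := lv_sum (B := B) (i.1 : Fin m → ℝ)
      rw [Fintype.sum_option] at e1
      rw [hw]
      simp only [Finset.sum_sub_distrib, Finset.sum_const, Finset.card_univ, Fintype.card_fin,
        nsmul_eq_mul]
      push_cast
      linarith
    rw [Finset.sum_comm]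
    simp only [hwe]
    rw [Finset.sum_add_distrib, ← add_assoc, ← Finset.sum_add_distrib]
    simp only [e0]
    rw [← Finset.sum_filter, Finset.sum_const, Finset.sum_const, nsmul_eq_mul, nsmul_eq_mul]
    simp only [Finset.card_univ, Fintype.card_prod, Fintype.card_coe]
    push_cast
    ring
  have hcardΩ : Ω.card ≤ (Finset.univ.filter fun i : W × J =>
      i.2 = j0 ∧ (i.1 : Fin m → ℝ) - γ ∈ Ω).card := by
    rw [← Finset.card_attach]
    refine Finset.card_le_card_of_injOn (fun ω => (⟨ω.1 + γ, Finset.add_mem_add ω.2 hγT⟩, j0))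
      ?_ ?_
    · intro ω _
      simp
    · intro a _ b _ hab
      have h1 := congrArg (fun i : W × J => (i.1 : Fin m → ℝ)) hab
      simp only [add_left_inj] at h1
      exact Subtype.ext h1
  rw [hsum] at hmain
  by_contra hcon
  rw [not_le] at hcon
  have hlv : lv B none γ ≤ lv B none g := key_le B (hγmin g hgT)
  have hC := abs_nonneg C
  have hJ : (0 : ℝ) ≤ Fintype.card J := by positivity
  have hm0 : (0 : ℝ) ≤ ((m + 1 : ℕ) : ℝ) := by positivity
  set M : ℝ := ((m + 1 : ℕ) : ℝ) with hM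
  have hX1 : 2 * M * |C| * Fintype.card J < X := by
    rw [hX]; linarith
  have hX0 : 0 ≤ X := le_trans (by positivity) hX1.le
  have hΩ1 : (1 : ℝ) ≤ Ω.card := by exact_mod_cast hΩne.card_pos
  have hc1 : (Ω.card : ℝ) ≤ ((Finset.univ.filter fun i : W × J =>
      i.2 = j0 ∧ (i.1 : Fin m → ℝ) - γ ∈ Ω).card : ℝ) := by exact_mod_cast hcardΩ
  have hc2 : (W.card : ℝ) ≤ 2 * Ω.card := by exact_mod_cast hΩ
  have h5 : (Ω.card : ℝ) * X ≤ M * |C| * ((W.card : ℝ) * Fintype.card J) := by
    have := mul_le_mul_of_nonneg_right hc1 hX0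
    linarith
  have h6 : M * |C| * ((W.card : ℝ) * Fintype.card J) ≤
      M * |C| * ((2 * Ω.card : ℝ) * Fintype.card J) := by gcongr
  have h7 : (Ω.card : ℝ) * (2 * M * |C| * Fintype.card J) < Ω.card * X :=
    mul_lt_mul_of_pos_left hX1 (by linarith)
  nlinarith

end Pool.Agent.TH147.AL
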