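import Mathlib
import Pool.Agent.TH881.RK.DefsH2

/-! Counting the vectors with prescribed bad classes: the number of the vectors modulo a prime for
which one class is good and all the classes of a given set are bad is an occupancy number. -/

set_option autoImplicit false

namespace Pool.Agent.TH147.J5135

open Finset Filter Topology
open Pool.Agent.TH881
open Pool.Agent.TH881.RG
open Pool.Agent.TH881.RQ
open Pool.Agent.TH881.RK
open Pool.Agent.H373R2.T7

section
open Classical

/-- occupancy count over a finite type -/
noncomputable def cnt {A : Type*} [Fintype A] (m : ℕ) (L : Finset A) (b : A) : ℕ :=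
  (univ.filter (fun x : Fin m → A => (∀ j, x j ≠ b) ∧ ∀ c ∈ L, ∃ j, x j = c)).card

theorem cnt_succ {A : Type*} [Fintype A] (m : ℕ) (L : Finset A) (b : A) :
    cnt (m + 1) L b = ∑ a : A, (univ.filter (fun x : Fin m → A =>
      (a ≠ b ∧ ∀ j, x j ≠ b) ∧ ∀ c ∈ L, (a = c ∨ ∃ j, x j = c))).card := by
  unfold cnt
  rw [Finset.card_filter]
  rw [← (Fin.consEquiv (fun _ : Fin (m + 1) => A)).sum_comp]
  rw [Fintype.sum_prod_type]
  refine Finset.sum_congr rfl (fun a _ => ?_)
  rw [Finset.card_filter]
  refine Finset.sum_congr rfl (fun y _ => ?_)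
  refine if_congr ?_ rfl rfl
  simp only [Fin.consEquiv_apply, Fin.forall_fin_succ, Fin.exists_fin_succ, Fin.cons_zero,
    Fin.cons_succ]

theorem cnt_eq {A : Type*} [Fintype A] (m : ℕ) :
    ∀ (L : Finset A) (b : A), b ∉ L → cnt m L b = dd m (Fintype.card A - 1) L.card := by
  induction m with
  | zero =>
    intro L b _
    unfold cnt
    rcases L.eq_empty_or_nonempty with h | h
    · subst h
      simp [dd]
    · obtain ⟨k, hk⟩ : ∃ k, L.card = k + 1 := ⟨L.card - 1, by have := h.card_pos; omega⟩
      rw [hk]
      simp only [dd]
      rw [Finset.card_eq_zero, Finset.filter_eq_empty_iff]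
      intro x _ hx
      obtain ⟨c, hc⟩ := h
      obtain ⟨j, _⟩ := hx.2 c hc
      exact j.elim0
  | succ m ih =>
    intro L b hb
    rw [cnt_succ]
    have h1 : ∀ a ∈ (univ : Finset A), (univ.filter (fun x : Fin m → A =>
        (a ≠ b ∧ ∀ j, x j ≠ b) ∧ ∀ c ∈ L, (a = c ∨ ∃ j, x j = c))).card
        = (if a ∈ L then dd m (Fintype.card A - 1) (L.card - 1) else 0)
          + (if a ∈ (univ \ insert b L) then dd m (Fintype.card A - 1) L.card else 0) := by
      intro a _
      by_cases haL : a ∈ L
      · have hab : a ≠ b := fun h => hb (h ▸ haL)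
        have h2 : a ∉ (univ \ insert b L : Finset A) := by simp [haL]
        rw [if_pos haL, if_neg h2, add_zero]
        have h3 : b ∉ L.erase a := fun h => hb (Finset.mem_of_mem_erase h)
        have h4 := ih (L.erase a) b h3
        rw [Finset.card_erase_of_mem haL] at h4
        rw [← h4]
        unfold cnt
        congr 1
        ext x
        simp only [Finset.mem_filter, Finset.mem_univ, true_and, Finset.mem_erase]
        constructor
        · rintro ⟨⟨_, hx⟩, hc⟩
          refine ⟨hx, fun c hc' => ?_⟩
          rcases hc c hc'.2 with h | h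
          · exact absurd h.symm hc'.1
          · exact h
        · rintro ⟨hx, hc⟩
          refine ⟨⟨hab, hx⟩, fun c hc' => ?_⟩
          by_cases h : a = c
          · exact Or.inl h
          · exact Or.inr (hc c ⟨fun h' => h h'.symm, hc'⟩)
      · rw [if_neg haL, zero_add]
        by_cases hab : a = b
        · have h2 : a ∉ (univ \ insert b L : Finset A) := by simp [hab]
          rw [if_neg h2, Finset.card_eq_zero, Finset.filter_eq_empty_iff]
          intro x _ hx
          exact hx.1.1 hab
        · have h2 : a ∈ (univ \ insert b L : Finset A) := by simp [hab, haL]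
          rw [if_pos h2, ← ih L b hb]
          unfold cnt
          congr 1
          ext x
          simp only [Finset.mem_filter, Finset.mem_univ, true_and]
          constructor
          · rintro ⟨⟨_, hx⟩, hc⟩
            refine ⟨hx, fun c hc' => ?_⟩
            rcases hc c hc' with h | h
            · exact absurd (h ▸ hc') haL
            · exact h
          · rintro ⟨hx, hc⟩
            exact ⟨⟨hab, hx⟩, fun c hc' => Or.inr (hc c hc')⟩
    rw [Finset.sum_congr rfl h1, Finset.sum_add_distrib, Finset.sum_ite_mem, Finset.sum_ite_mem,
      Finset.univ_inter, Finset.univ_inter, Finset.sum_const, Finset.sum_const, smul_eq_mul,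
      smul_eq_mul]
    have h5 : (univ \ insert b L : Finset A).card = Fintype.card A - 1 - L.card := by
      rw [Finset.card_sdiff_of_subset (Finset.subset_univ _), Finset.card_insert_of_notMem hb,
        Finset.card_univ]
      omega
    rw [h5]
    rcases h : L.card with _ | k
    · simp [dd]
    · simp only [dd, Nat.add_sub_cancel]
      ring

theorem stDC : StDC := by
  intro m p _ hp L b hb
  have h1 : (-b) ∉ L.image (fun c => -c) := by
    intro h
    rw [Finset.mem_image] at h
    obtain ⟨c, hc, hcb⟩ := h
    exact hb (neg_injective hcb ▸ hc)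
  have h2 := cnt_eq m (L.image (fun c => -c)) (-b) h1
  rw [Finset.card_image_of_injective _ neg_injective, ZMod.card] at h2
  rw [← h2]
  unfold Dn cnt
  congr 1
  ext x
  simp only [Finset.mem_filter, Finset.mem_univ, true_and, Finset.mem_image,
    forall_exists_index, and_imp, forall_apply_eq_imp_iff₂, ne_eq, add_eq_zero_iff_eq_neg]

end

end Pool.Agent.TH147.J5135
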